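import Pool.Agent.H27.Mag2

set_option autoImplicit false

namespace Pool.Agent.Results.MP_8e2f96_co.Gap

open Pool.Agent.H27.Mag

theorem result : ∀ d : ℕ, 2 ≤ d → ∃ c : ℝ, 0 < c ∧
    ∀ (V : Type) [Fintype V] [DecidableEq V] (G : SimpleGraph V) [DecidableRel G.Adj]
      (hL : (G.lapMatrix ℝ).IsHermitian) (l : Fin (Fintype.card V)),
      (l : ℕ) + 2 = Fintype.card V → G.Connected → d ≤ G.minDegree →
      hL.eigenvalues₀ l ≤ c * nu G :=
  fun _ hd => ⟨50000, by norm_num, fun _ _ _ G _ hL l hl _ h => gap_le G (hd.trans h) hL l hl⟩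

end Pool.Agent.Results.MP_8e2f96_co.Gap
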